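import Pool.Agent.H99.Trib.Average

/-!
# Average order of the state complexity of the shifts of the Tribonacci word
-/

namespace Pool.Agent.Results.MP_99b159_lc.AverageOrder

open Pool.H99.Trib

/-- The mean of the state complexity `s c` over `c < N` is `(log N) ^ (θ + o(1))`, and at most
`C * (log N) ^ θ`, with `θ = log β / log (β / lam) = 2.20...`. -/
theorem result (β lam : ℝ) (hβ : 0 < β) (hβ3 : β ^ 3 = β ^ 2 + β + 1) (hlam : 0 < lam)
    (hlam4 : lam ^ 4 = 2 * lam + 1) (θ : ℝ) (hθ : θ = Real.log β / Real.log (β / lam)) :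
    (∃ C : ℝ, 0 < C ∧ ∀ N : ℕ, 2 ≤ N →
      ∑ c ∈ Finset.range N, (s c : ℝ) ≤ C * N * Real.log N ^ θ) ∧
    (∀ ε : ℝ, 0 < ε → ∀ᶠ N : ℕ in Filter.atTop,
      (N : ℝ) * Real.log N ^ (θ - ε) ≤ ∑ c ∈ Finset.range N, (s c : ℝ)) ∧
    220 / 100 < θ ∧ θ < 221 / 100 := by
  subst hθ
  exact ⟨mean_polylog β lam hβ hβ3 hlam hlam4,
    fun ε hε => average_lower β lam hβ hβ3 hlam hlam4 ε hε,
    (theta_bounds β lam hβ hβ3 hlam hlam4).1, (theta_bounds β lam hβ hβ3 hlam hlam4).2⟩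

end Pool.Agent.Results.MP_99b159_lc.AverageOrder
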