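import Pool.Agent.H99.Trib.Upper
import Pool.Agent.H99.Trib.Lower2

/-!
# Maximal order of the state complexity of the shifts of the Tribonacci word
-/

namespace Pool.Agent.Results.MP_99b159_lc.MaximalOrder

open Pool.H99.Trib

/-- The state complexity `s c` of the sequence `r (i + c)` is at most `C * c ^ δ` for all `c ≥ 1`,
where `δ = log lam / log β < 0.547`, and at least `a * c ^ 0.514` for the numbers
`c = W (L + 3) + W (L + 2) + W L`. -/
theorem result (β lam : ℝ) (hβ : 0 < β) (hβ3 : β ^ 3 = β ^ 2 + β + 1) (hlam : 0 < lam)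
    (hlam4 : lam ^ 4 = 2 * lam + 1) :
    (∃ C : ℝ, 0 < C ∧ ∀ c : ℕ, 1 ≤ c → (s c : ℝ) ≤ C * (c : ℝ) ^ (Real.log lam / Real.log β)) ∧
    Real.log lam / Real.log β < 547 / 1000 ∧
    (∃ a : ℝ, 0 < a ∧ ∀ L : ℕ,
      a * ((W (L + 3) + W (L + 2) + W L : ℕ) : ℝ) ^ ((514 : ℝ) / 1000) ≤
        (s (W (L + 3) + W (L + 2) + W L) : ℝ)) :=
  ⟨upper β lam hβ hβ3 hlam hlam4, exponent_lt β lam hβ hβ3 hlam hlam4, lower_exp⟩

end Pool.Agent.Results.MP_99b159_lc.MaximalOrder
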