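import Pool.Agent.H99.Trib.Normal

/-!
# Normal order of the state complexity of the shifts of the Tribonacci word
-/

namespace Pool.Agent.Results.MP_99b159_lc.NormalOrder

open Pool.H99.Trib

open Classical in
/-- For almost all `c` (in the sense of natural density) the state complexity `s c` lies between
`(log c) ^ (θ - ε)` and `(log c) ^ (θ + ε)`, with `θ = log β / log (β / lam) = 2.20...`. -/
theorem result (β lam : ℝ) (hβ : 0 < β) (hβ3 : β ^ 3 = β ^ 2 + β + 1) (hlam : 0 < lam)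
    (hlam4 : lam ^ 4 = 2 * lam + 1) (θ : ℝ) (hθ : θ = Real.log β / Real.log (β / lam)) :
    (∀ ε : ℝ, 0 < ε → Filter.Tendsto (fun N : ℕ => (((Finset.range N).filter fun c : ℕ =>
      ¬ (Real.log (c : ℝ) ^ (θ - ε) ≤ (s c : ℝ) ∧
        (s c : ℝ) ≤ Real.log (c : ℝ) ^ (θ + ε))).card : ℝ) / N) Filter.atTop (nhds 0)) ∧
    220 / 100 < θ ∧ θ < 221 / 100 := by
  subst hθ
  exact ⟨fun ε hε => normal_order β lam hβ hβ3 hlam hlam4 ε hε,
    (theta_bounds β lam hβ hβ3 hlam hlam4).1, (theta_bounds β lam hβ hβ3 hlam hlam4).2⟩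

end Pool.Agent.Results.MP_99b159_lc.NormalOrder
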